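import Pool.Agent.H63.WT.TA

/-!
# Auxiliary lemmas: induction over the factors, coprimality, symbols modulo irreducibles
-/

set_option autoImplicit false

open Polynomial Matrix Pool.Agent.H63.WT

namespace Pool.Agent.H34.WT

theorem coprime_C {F : Type} [Field F] (A : F[X]) {l : F} (hl : l ≠ 0) : IsCoprime A (C l) :=
  ⟨0, C l⁻¹, by rw [zero_mul, zero_add, ← C_mul, inv_mul_cancel₀ hl, C_1]⟩

/-- induction over the irreducible factors of a separable monic polynomial -/
theorem sep_ind {F : Type} [Field F] {Q : F[X] → Prop} (h1 : Q 1)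
    (hm : ∀ p A : F[X], p.Monic → Irreducible p → A.Monic → (p * A).Separable → Q A → Q (p * A)) :
    ∀ A : F[X], A.Monic → A.Separable → Q A := by
  have key : ∀ n : ℕ, ∀ A : F[X], A.natDegree = n → A.Monic → A.Separable → Q A := by
    intro n
    induction n using Nat.strong_induction_on with
    | _ n ih =>
      intro A hn hA hs
      by_cases hA1 : A = 1
      · rw [hA1]; exact h1
      · have hnu : ¬ IsUnit A := fun h => hA1 (hA.eq_one_of_isUnit h)
        obtain ⟨p, hpm, hpi, hpd⟩ := Polynomial.exists_monic_irreducible_factor A hnu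
        obtain ⟨B, hB⟩ := hpd
        have hBm : B.Monic := by
          have h2 : (p * B).Monic := hB ▸ hA
          exact hpm.of_mul_monic_left h2
        rw [hB]
        refine hm p B hpm hpi hBm (hB ▸ hs) (ih B.natDegree ?_ B rfl hBm ?_)
        · rw [← hn, hB, hpm.natDegree_mul hBm]
          have := hpi.natDegree_pos
          omega
        · have h3 : (p * B).Separable := hB ▸ hs
          exact h3.of_mul_right
  exact fun A hA hs => key A.natDegree A rfl hA hs

/-- the conic modulo `p` and over the field `F[X] / p` -/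
theorem solM_iff {F : Type} [Field F] (p : F[X]) [Fact (Irreducible p)] (a b : F[X]) :
    SolM p a b ↔ Pool.Agent.H32.QC.Sol (AdjoinRoot.mk p a) (AdjoinRoot.mk p b) := by
  constructor
  · rintro ⟨x, y, z, hne, hd⟩
    refine ⟨AdjoinRoot.mk p x, AdjoinRoot.mk p y, AdjoinRoot.mk p z, ?_, ?_⟩
    · rcases hne with h | h | h
      · exact Or.inl fun h0 => h (AdjoinRoot.mk_eq_zero.1 h0)
      · exact Or.inr (Or.inl fun h0 => h (AdjoinRoot.mk_eq_zero.1 h0))
      · exact Or.inr (Or.inr fun h0 => h (AdjoinRoot.mk_eq_zero.1 h0))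
    · have h := AdjoinRoot.mk_eq_zero.2 hd
      rw [map_sub, map_sub, map_mul, map_mul, map_pow, map_pow, map_pow] at h
      linear_combination h
  · rintro ⟨x, y, z, hne, hd⟩
    obtain ⟨x, rfl⟩ := AdjoinRoot.mk_surjective x
    obtain ⟨y, rfl⟩ := AdjoinRoot.mk_surjective y
    obtain ⟨z, rfl⟩ := AdjoinRoot.mk_surjective z
    refine ⟨x, y, z, ?_, ?_⟩
    · rcases hne with h | h | h
      · exact Or.inl fun h0 => h (AdjoinRoot.mk_eq_zero.2 h0)
      · exact Or.inr (Or.inl fun h0 => h (AdjoinRoot.mk_eq_zero.2 h0))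
      · exact Or.inr (Or.inr fun h0 => h (AdjoinRoot.mk_eq_zero.2 h0))
    · apply AdjoinRoot.mk_eq_zero.1
      rw [map_sub, map_sub, map_mul, map_mul, map_pow, map_pow, map_pow]
      linear_combination hd

/-- the class is trivial modulo one -/
theorem sy_one {F : Type} [Field F] [CharZero F] (hSYF : T_SYF) (hF : LA F) (a b : F[X]) :
    sy 1 a b = 0 := by
  have h := hSYF F hF 1 1 a b monic_one monic_one (by rw [mul_one]; exact separable_one)
    (by rw [mul_one]; exact isCoprime_one_left) (by rw [mul_one]; exact isCoprime_one_left)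
  rw [mul_one] at h
  simpa using h

end Pool.Agent.H34.WT
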