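import Pool.Agent.H63.WT.TC
import Pool.Agent.H34.WT.Lib

/-!
# Row CAD: the values of the two classes
-/

set_option autoImplicit false

open Polynomial Matrix Pool.Agent.H63.WT

namespace Pool.Agent.H34.WT

theorem pf_CAD (hSYF : T_SYF) (hSYB : T_SYB) (hSYC : T_SYC) (hSYI : T_SYI) (hI2A : T_I2A)
    (hEU9 : T_EU9) (hGDT : T_GDT) (hNNR : T_NNR) : T_CAD := by
  intro F _ _ hF A B R U M hA hB hR hU hARU hsep hcop hsq hnn
  have h20 : (2 : F) ≠ 0 := hF.1
  have hRA : R ∣ A := by rw [hARU]; exact Dvd.intro _ rfl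
  have hUA : U ∣ A := by rw [hARU]; exact Dvd.intro_left _ rfl
  have hsepA : A.Separable := hsep.of_mul_left
  have hsepRU : (R * U).Separable := hARU ▸ hsepA
  have hsR : R.Separable := hsepRU.of_mul_left
  have hAM : IsCoprime A M := hcop.of_isCoprime_of_dvd_left (Dvd.intro _ rfl)
  have hRM : IsCoprime R M := hAM.of_isCoprime_of_dvd_left hRA
  have hUM : IsCoprime U M := hAM.of_isCoprime_of_dvd_left hUA
  obtain ⟨hI0, hIadd, hIneg⟩ := hI2A F h20
  have hsmul : ∀ (n : ℕ) (x : WG F), I2 x → I2 (n • x) := by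
    intro n x hx
    induction n with
    | zero => rw [zero_smul]; exact hI0
    | succ n ih => rw [succ_nsmul]; exact hIadd _ _ ih hx
  -- the norm of `M` modulo `R`
  have hnR : IsSquare (nn R M) := by
    obtain ⟨s, hs⟩ := hsq
    have hUs : IsCoprime U s := by
      have h1 : IsCoprime U (s ^ 2) := by
        obtain ⟨q, hq⟩ := hs
        have h2 : s ^ 2 = M + U * (-q) := by linear_combination -hq
        rw [h2]
        exact hUM.add_mul_left_right _
      exact (IsCoprime.pow_right_iff two_pos).1 h1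
    obtain ⟨-, -, hdetU, hmulU, -, hcongU, -⟩ := hGDT F U hU
    have h3 : nn U M = nn U s ^ 2 := by
      rw [nn, hcongU M (s ^ 2) hs, ← nn, pow_two, hmulU, pow_two]
    have h4 : nn U s ≠ 0 := mul_ne_zero ((hdetU s).2 hUs) ((hdetU 1).2 isCoprime_one_right)
    have h5 := (hNNR F R U hR hU).1 M
    rw [← hARU, h3] at h5
    obtain ⟨y, hy⟩ := hnn
    refine ⟨y / nn U s, ?_⟩
    rw [h5] at hy
    field_simp
    linear_combination hy
  refine ⟨hnR, ?_, ?_, ?_⟩
  · intro T hT
    have h1 : I2 (qc A B M) := ((hEU9 F h20).2.1 A B M hA hsep.isCoprime hAM).2 hnn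
    exact hIadd _ _ (hsmul _ _ h1) (hSYI F h20 R M T hR hRM hT)
  · intro T T' hT hT' hRT hRT'
    rw [cc, cc, cc, hT.natDegree_mul hT', hSYB F hF R M T T' hR hsR hRM hRT hRT', add_smul]
    abel
  · intro T hT
    have h1 : IsCoprime (R * U) M := hARU ▸ hAM
    have h2 : IsCoprime (R * U) T := hARU ▸ hT
    rw [hARU, hSYF F hF R U M T hR hU hsepRU h1 h2,
      (hSYC F hF U M hU hsepRU.of_mul_right hUM).2.1 T
        (h2.of_isCoprime_of_dvd_left (Dvd.intro_left _ rfl)) hsq, add_zero]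

end Pool.Agent.H34.WT
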