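import Pool.Agent.H63.WT.TC
import Pool.Agent.H34.WT.Lib

/-!
# Rows NTR, RMV, FLN
-/

set_option autoImplicit false

open Polynomial Matrix Pool.Agent.H63.WT

namespace Pool.Agent.H34.WT

theorem pf_NTR (hSYN : T_SYN) (hSYB : T_SYB) (hSYC : T_SYC) : T_NTR := by
  intro F _ _ hF R M Y T l hR hs hRM hram hsq hl hYT
  have hRT : IsCoprime R T := by
    refine isCoprime_of_irreducible_dvd (fun h => hR.ne_zero h.1) ?_
    intro p hp hpR hpT
    refine hram p hp hpR ⟨Y, ?_⟩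
    have h1 : p ∣ Y ^ 2 - M := by rw [hYT]; exact Dvd.dvd.mul_left hpT _
    have h2 : M - Y ^ 2 = -(Y ^ 2 - M) := by ring
    rw [h2]
    exact (dvd_neg).2 h1
  refine ⟨hRT, ?_⟩
  have hRl := coprime_C R hl
  have h1 : sy R M (C l * T) = 0 := by
    rw [← hYT]
    exact hSYN F hF R M Y hR hs hRM (by rw [hYT]; exact hRl.mul_right hRT)
  rw [hSYB F hF R M (C l) T hR hs hRM hRl hRT, (hSYC F hF R M hR hs hRM).1 l hl hsq,
    zero_add] at h1
  exact h1

/-- near each element there are elements which are no roots -/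
theorem exists_near {F : Type} [NontriviallyNormedField F] (P : F[X]) (hP : P ≠ 0) (t : F)
    {ε : ℝ} (hε : 0 < ε) : ∃ t' : F, ‖t' - t‖ < ε ∧ eval t' P ≠ 0 := by
  classical
  by_contra h
  push Not at h
  have hinf : Set.Infinite {t' : F | ‖t' - t‖ < ε} := by
    have h1 : {t' : F | ‖t' - t‖ < ε} = Metric.ball t ε := by
      ext x; rw [Metric.mem_ball, dist_eq_norm]; rfl
    rw [h1]
    exact infinite_of_mem_nhds t (Metric.ball_mem_nhds t hε)
  refine hinf ((P.roots.toFinset.finite_toSet).subset fun x hx => ?_)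
  rw [Finset.mem_coe, Multiset.mem_toFinset, mem_roots hP]
  exact h x hx

theorem coprime_X_sub_C {F : Type} [Field F] {A : F[X]} {t : F} (h : eval t A ≠ 0) :
    IsCoprime (X - C t) A := by
  rw [(irreducible_X_sub_C t).coprime_iff_not_dvd, dvd_iff_isRoot]
  exact h

theorem pf_FLN (hCLC : T_CLC) (hCAD : T_CAD) (hLAL : T_LAL) : T_FLN := by
  intro F _ _ _ _ m M0 P1 P2 R1 R2 U1 U2 hD hFail t ht
  obtain ⟨y, hy⟩ := ht
  have hsq : SqM (X - C t) (C m * M0) := by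
    refine ⟨C y, ?_⟩
    rw [dvd_iff_isRoot, IsRoot, eval_sub, eval_mul, eval_C, eval_pow, eval_C, hy]
    ring
  have hR1 : eval t R1 ≠ 0 := fun h => hD.ram1 (X - C t) (irreducible_X_sub_C t)
    (dvd_iff_isRoot.2 h) hsq
  have hR2 : eval t R2 ≠ 0 := fun h => hD.ram2 (X - C t) (irreducible_X_sub_C t)
    (dvd_iff_isRoot.2 h) hsq
  refine ⟨hR1, hR2, ?_⟩
  rintro ⟨h1, h2⟩
  have hLA := hLAL F
  have hcop : IsCoprime (P1 * P2) (C m * M0) := (coprime_C _ hD.m0).mul_right hD.cop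
  have hcop' : IsCoprime (P2 * P1) (C m * M0) := by rw [mul_comm]; exact hcop
  have hsep1 : P1.Separable := hD.sep.of_mul_left
  have hsep2 : P2.Separable := hD.sep.of_mul_right
  have hR1s : R1.Separable := (hD.fac1 ▸ hsep1 : (R1 * U1).Separable).of_mul_left
  have hR2s : R2.Separable := (hD.fac2 ▸ hsep2 : (R2 * U2).Separable).of_mul_left
  have hR1P : R1 ∣ P1 * P2 := by rw [hD.fac1, mul_assoc]; exact Dvd.intro _ rfl
  have hR2P : R2 ∣ P1 * P2 := by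
    rw [hD.fac2]; exact (Dvd.intro _ rfl : R2 ∣ R2 * U2).trans (Dvd.intro_left _ rfl)
  have hnR1 := (hCAD F hLA P1 P2 R1 U1 (C m * M0) hD.mon1 hD.mon2 hD.monR1 hD.monU1 hD.fac1
    hD.sep hcop hD.sq1 hD.nn1).1
  have hnR2 := (hCAD F hLA P2 P1 R2 U2 (C m * M0) hD.mon2 hD.mon1 hD.monR2 hD.monU2 hD.fac2
    (by rw [mul_comm]; exact hD.sep) hcop' hD.sq2 hD.nn2).1
  obtain ⟨ε1, hε1, hc1⟩ := (hCLC F P1 P2 R1 (C m * M0) hD.monR1 hR1s
    (hcop.of_isCoprime_of_dvd_left hR1P) hnR1).1 t hR1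
  obtain ⟨ε2, hε2, hc2⟩ := (hCLC F P2 P1 R2 (C m * M0) hD.monR2 hR2s
    (hcop.of_isCoprime_of_dvd_left hR2P) hnR2).1 t hR2
  obtain ⟨t', ht', hP'⟩ := exists_near (P1 * P2) (mul_ne_zero hD.mon1.ne_zero hD.mon2.ne_zero) t
    (lt_min hε1 hε2)
  have h3 := (hc1 t' (ht'.trans_le (min_le_left _ _))).2
  have h4 := (hc2 t' (ht'.trans_le (min_le_right _ _))).2
  refine (hFail (X - C t') (monic_X_sub_C t') (irreducible_X_sub_C t')
    (coprime_X_sub_C hP')).1 (by rw [natDegree_X_sub_C]; exact odd_one) ⟨?_, ?_⟩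
  · rw [h3, h1]
  · rw [h4, h2]

theorem pf_RMV (hNRP : T_NRP) (hLAL : T_LAL) (hIV : T_IV) (hI2A : T_I2A)
    (hEU9 : T_EU9) : T_RMV := by
  intro F _ _ _ _ m M0 P1 P2 R1 R2 U1 U2 hD hFail p hp hpi
  have hLA := hLAL F
  have h20 : (2 : F) ≠ 0 := hLA.1
  obtain ⟨hNI, hnsq⟩ := hLA.2 F inferInstance
  obtain ⟨htwo, huniq, ⟨v, hvI, hv0⟩, -⟩ := hIV F h20 hNI hnsq
  obtain ⟨hI0, hIadd, hIneg⟩ := hI2A F h20
  have hcop : IsCoprime (P1 * P2) (C m * M0) := (coprime_C _ hD.m0).mul_right hD.cop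
  have hcop' : IsCoprime (P2 * P1) (C m * M0) := by rw [mul_comm]; exact hcop
  have hP12 : IsCoprime P1 P2 := hD.sep.isCoprime
  have hq1 : I2 (qc P1 P2 (C m * M0)) := ((hEU9 F h20).2.1 P1 P2 (C m * M0) hD.mon1 hP12
    (hcop.of_isCoprime_of_dvd_left (Dvd.intro _ rfl))).2 hD.nn1
  have hq2 : I2 (qc P2 P1 (C m * M0)) := ((hEU9 F h20).2.1 P2 P1 (C m * M0) hD.mon2 hP12.symm
    (hcop.of_isCoprime_of_dvd_left (Dvd.intro_left _ rfl))).2 hD.nn2
  have hR1P : R1 * R2 ∣ P1 * P2 := by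
    rw [hD.fac1, hD.fac2]
    exact ⟨U1 * U2, by ring⟩
  have hR2P : R2 * R1 ∣ P1 * P2 := by rw [mul_comm R2 R1]; exact hR1P
  have hsmul : ∀ (n : ℕ) (x : WG F), I2 x → I2 (n • x) := by
    intro n x hx
    induction n with
    | zero => rw [zero_smul]; exact hI0
    | succ n ih => rw [succ_nsmul]; exact hIadd _ _ ih hx
  -- the two halves
  have key : ∀ (A B R R' : F[X]), R.Monic → R'.Monic → R * R' ∣ P1 * P2 →
      I2 (qc A B (C m * M0)) →
      (∀ q : F[X], Irreducible q → q ∣ R → ¬ SqM q (C m * M0)) → p ∣ R →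
      (∀ T : F[X], T.Monic → Irreducible T → IsCoprime T (P1 * P2) →
        (Odd T.natDegree → ¬ (cc A B R (C m * M0) T = 0 ∧ cc B A R' (C m * M0) T = 0)) ∧
        (Even T.natDegree → ¬ (cc A B R (C m * M0) T ≠ 0 ∧ cc B A R' (C m * M0) T ≠ 0))) →
      (Odd p.natDegree → cc B A R' (C m * M0) p ≠ 0) ∧
        (Even p.natDegree → cc B A R' (C m * M0) p = 0) := by
    intro A B R R' hR hR' hRR hq hram hpR hF
    have hsepR : (R * R').Separable := hD.sep.of_dvd hRR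
    have hcopR : IsCoprime (R * R') (C m * M0) := hcop.of_isCoprime_of_dvd_left hRR
    have hT : ∀ x : WG F, I2 x → ∃ T : F[X], T.Monic ∧ Irreducible T ∧
        T.natDegree = p.natDegree ∧ IsCoprime T (P1 * P2) ∧
        cc A B R (C m * M0) T = p.natDegree • qc A B (C m * M0) + x ∧
        cc B A R' (C m * M0) T = cc B A R' (C m * M0) p := by
      intro x hx
      obtain ⟨T, hTm, hTi, hTd, hTP, -, hT1, hT2⟩ := hNRP F R R' (P1 * P2) (C m * M0) p x hR hR'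
        (hD.mon1.mul hD.mon2) hsepR hcopR (mul_ne_zero hD.mon1.ne_zero hD.mon2.ne_zero) hp hpi
        hpR (hram p hpi hpR) hx
      refine ⟨T, hTm, hTi, hTd, hTP, ?_, ?_⟩
      · rw [cc, hTd, hT1]
      · rw [cc, cc, hTd, hT2]
    refine ⟨fun ho hz => ?_, fun he => ?_⟩
    · obtain ⟨T, hTm, hTi, hTd, hTP, hT1, hT2⟩ := hT (-(p.natDegree • qc A B (C m * M0)))
        (hIneg _ (hsmul _ _ hq))
      exact (hF T hTm hTi hTP).1 (by rw [hTd]; exact ho) ⟨by rw [hT1]; abel, by rw [hT2, hz]⟩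
    · by_contra hz
      obtain ⟨T, hTm, hTi, hTd, hTP, hT1, hT2⟩ := hT (v - p.natDegree • qc A B (C m * M0))
        (by rw [sub_eq_add_neg]; exact hIadd _ _ hvI (hIneg _ (hsmul _ _ hq)))
      refine (hF T hTm hTi hTP).2 (by rw [hTd]; exact he) ⟨?_, by rw [hT2]; exact hz⟩
      rw [hT1]
      have : p.natDegree • qc A B (C m * M0) + (v - p.natDegree • qc A B (C m * M0)) = v := by
        abel
      rw [this]; exact hv0
  refine ⟨fun h => ?_, fun h => ?_⟩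
  · exact key P1 P2 R1 R2 hD.monR1 hD.monR2 hR1P hq1 hD.ram1 h hFail
  · exact key P2 P1 R2 R1 hD.monR2 hD.monR1 hR2P hq2 hD.ram2 h fun T h1 h2 h3 =>
      ⟨fun ho hc => (hFail T h1 h2 h3).1 ho ⟨hc.2, hc.1⟩,
        fun he hc => (hFail T h1 h2 h3).2 he ⟨hc.2, hc.1⟩⟩

end Pool.Agent.H34.WT
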