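import Pool.Agent.H63.WT.TD
import Pool.Agent.H34.WT.Lib

/-!
# Row PRJ: the projection formula for quadratic extensions
-/

set_option autoImplicit false

open Polynomial Matrix Pool.Agent.H63.WT

namespace Pool.Agent.H34.WT

theorem pf_PRJ (hNFT : T_NFT) (hQDZ : T_QDZ) (hBCH : T_BCH) (hBCS : T_BCS) (hTRH : T_TRH)
    (hTR : T_TR) (hEU9 : T_EU9) (hGMM : T_GMM) : T_PRJ := by
  intro F E _ _ _ _ hF hfr T t hT hT2 hTi ht A h hA hAT hAh hsq
  have h20 : (2 : F) ≠ 0 := hF.1
  have h2E : (2 : E) ≠ 0 := by
    have h := (map_ne_zero (algebraMap F E)).2 h20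
    rwa [map_ofNat] at h
  have hfin : FiniteDimensional F E := FiniteDimensional.of_finrank_pos (by rw [hfr]; norm_num)
  -- `E = F(t)`
  have hmin : minpoly F t = T := by
    have hint : IsIntegral F t := Algebra.IsIntegral.isIntegral t
    exact (minpoly.eq_of_irreducible_of_monic hTi ht hT).symm
  have hadj : Algebra.adjoin F {t} = ⊤ := by
    have hint : IsIntegral F t := Algebra.IsIntegral.isIntegral t
    have h1 : Module.finrank F (IntermediateField.adjoin F {t}) = 2 := by
      rw [IntermediateField.adjoin.finrank hint, hmin, hT2]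
    have h2 : IntermediateField.adjoin F {t} = ⊤ :=
      IntermediateField.eq_of_le_of_finrank_eq le_top (by
        rw [h1, IntermediateField.finrank_top', hfr])
    have h3 := IntermediateField.adjoin_simple_toSubalgebra_of_isAlgebraic
      (hint.isAlgebraic)
    rw [← h3, h2, IntermediateField.top_toSubalgebra]
  obtain ⟨b, s, hs0, -, -, hf⟩ := hNFT F E h20 T t hT hTi ht hadj
  obtain ⟨f, hfT⟩ := hTRH F E h20 T.natDegree b s hs0
  have hfx := hf f hfT A h hA hAT hAh
  rw [if_neg (by rw [hT2]; decide)] at hfx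
  -- base change
  obtain ⟨g, hg⟩ := hBCH F E h20 (algebraMap F E)
  have hgS := hBCS F E h20 g hg
  have hq : I2 (S A h - S A 1) := by
    have h1 := ((hEU9 F h20).2.1 A 1 h hA isCoprime_one_right hAh).2 hsq
    rw [qc, mul_one] at h1
    exact h1
  have hz := hQDZ F E hF hfr g hg _ hq
  rw [map_sub, hgS A h hA hAh, hgS A 1 hA isCoprime_one_right, Polynomial.map_one] at hz
  have hAE : (A.map (algebraMap F E)).Monic := hA.map _
  have hhE : IsCoprime (A.map (algebraMap F E)) (h.map (algebraMap F E)) :=
    hAh.map (Polynomial.mapRingHom (algebraMap F E))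
  have hAt : IsCoprime (A.map (algebraMap F E)) (X - C t) := by
    rw [isCoprime_comm, (irreducible_X_sub_C t).coprime_iff_not_dvd, dvd_iff_isRoot]
    intro h0
    obtain ⟨u, v, huv⟩ := hAT
    have h1 := congrArg (aeval t) huv
    rw [IsRoot, eval_map, ← aeval_def] at h0
    rw [map_add, map_mul, map_mul, ht, mul_zero, add_zero, h0, mul_zero, map_one] at h1
    exact zero_ne_one h1
  have hnnE : IsSquare (nn (A.map (algebraMap F E)) (h.map (algebraMap F E))) := by
    rw [(hGMM F E (algebraMap F E) A h hA).1]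
    exact hsq.map (algebraMap F E)
  have hxI : I2 (S (A.map (algebraMap F E)) (h.map (algebraMap F E) * (X - C t)) -
      S (A.map (algebraMap F E)) (X - C t)) :=
    ((hEU9 E h2E).2.1 _ (X - C t) _ hAE hAt hhE).2 hnnE
  have hsy : sy (A.map (algebraMap F E)) (h.map (algebraMap F E)) (X - C t) =
      S (A.map (algebraMap F E)) (h.map (algebraMap F E) * (X - C t)) -
      S (A.map (algebraMap F E)) (X - C t) := by
    have h1 : S (A.map (algebraMap F E)) (h.map (algebraMap F E)) =
        S (A.map (algebraMap F E)) 1 := sub_eq_zero.1 hz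
    rw [sy, h1]
    abel
  rw [hsy, ← hfx]
  constructor
  · exact fun h0 => hTR F E hF hfin T.natDegree b s f hs0 hfT _ hxI h0
  · intro h0
    rw [h0, map_zero]

end Pool.Agent.H34.WT
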