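import Pool.Agent.H63.WT.TD
import Pool.Agent.H34.WT.Lib

/-!
# Row SPT: the criterion for a split form at a closed point
-/

set_option autoImplicit false

open Polynomial Matrix Pool.Agent.H63.WT

namespace Pool.Agent.H34.WT

theorem pf_SPT (hNFT : T_NFT) (hSP7 : T_SP7) (hTR : T_TR) (hTRH : T_TRH) (hEU9 : T_EU9)
    (hGMM : T_GMM) (hIV : T_IV) : T_SPT := by
  intro F _ _ hF P D T hP hPs hP7 hPD hsq hT hTi hTP
  have h20 : (2 : F) ≠ 0 := hF.1
  obtain ⟨hNI, hnsq⟩ := hF.2 F inferInstance
  have hq2 : ∀ x : WG F, I2 x → x + x = 0 := (hIV F h20 hNI hnsq).1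
  have hqI : I2 (S P D - S P 1) := by
    have h1 := ((hEU9 F h20).2.1 P 1 D hP isCoprime_one_right hPD).2 hsq
    rw [qc, mul_one] at h1
    exact h1
  have key : ∀ (E : Type) [Field E] [Algebra F E] (t : E), aeval t T = 0 →
      Algebra.adjoin F {t} = ⊤ → (Pool.Agent.H34.N6.TI
      (Pool.Agent.H34.N6.ft (P.map (algebraMap F E)) (D.map (algebraMap F E)) t) 3 ↔
      T.natDegree • (S P D - S P 1) + sy P D T = 0) := by
    intro E _ _ t ht hadj
    obtain ⟨b, s, hs0, -, -, hf⟩ := hNFT F E h20 T t hT hTi ht hadj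
    have hfin : FiniteDimensional F E := Module.Finite.of_basis b
    have h2E : (2 : E) ≠ 0 := by
      have h := (map_ne_zero (algebraMap F E)).2 h20
      rwa [map_ofNat] at h
    have hPt : eval t (P.map (algebraMap F E)) ≠ 0 := by
      intro h0
      obtain ⟨u, v, huv⟩ := hTP
      have h1 := congrArg (aeval t) huv
      rw [map_add, map_mul, map_mul, ht, mul_zero, zero_add, map_one] at h1
      rw [eval_map, ← aeval_def] at h0
      rw [h0, mul_zero] at h1
      exact zero_ne_one h1
    have hPE : (P.map (algebraMap F E)).Monic := hP.map _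
    have hcopE : IsCoprime (P.map (algebraMap F E)) (D.map (algebraMap F E)) :=
      hPD.map (Polynomial.mapRingHom (algebraMap F E))
    have hnnE : IsSquare (nn (P.map (algebraMap F E)) (D.map (algebraMap F E))) := by
      rw [(hGMM F E (algebraMap F E) P D hP).1]
      exact hsq.map (algebraMap F E)
    have hcopt : IsCoprime (P.map (algebraMap F E)) (X - C t) := by
      rw [isCoprime_comm, (irreducible_X_sub_C t).coprime_iff_not_dvd, dvd_iff_isRoot]
      exact hPt
    rw [hSP7 E h2E _ _ t hPE (by rw [hP.natDegree_map, hP7]) hcopE hnnE hPt]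
    have hxI : I2 (S (P.map (algebraMap F E)) (D.map (algebraMap F E) * (X - C t)) -
        S (P.map (algebraMap F E)) (X - C t)) :=
      ((hEU9 E h2E).2.1 _ (X - C t) _ hPE hcopt hcopE).2 hnnE
    obtain ⟨f, hfT⟩ := hTRH F E h20 T.natDegree b s hs0
    have hfx := hf f hfT P D hP hTP.symm hPD
    have h1 : S (P.map (algebraMap F E)) (D.map (algebraMap F E) * (X - C t)) =
        S (P.map (algebraMap F E)) (X - C t) ↔
        (if Odd T.natDegree then S P (D * T) - S P T else sy P D T) = 0 := by
      rw [← hfx, ← sub_eq_zero]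
      constructor
      · intro h
        rw [h, map_zero]
      · intro h
        exact hTR F E hF hfin T.natDegree b s f hs0 hfT _ hxI h
    rw [h1]
    have h2 : (if Odd T.natDegree then S P (D * T) - S P T else sy P D T) =
        T.natDegree • (S P D - S P 1) + sy P D T := by
      by_cases ho : Odd T.natDegree
      · rw [if_pos ho]
        obtain ⟨n, hn⟩ := ho
        have h3 : T.natDegree • (S P D - S P 1) = S P D - S P 1 := by
          rw [hn, add_smul, one_smul, mul_comm, mul_smul, two_smul, hq2 _ hqI, smul_zero,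
            zero_add]
        rw [h3, sy]
        abel
      · rw [if_neg ho]
        obtain ⟨n, hn⟩ := Nat.not_odd_iff_even.1 ho
        have h3 : T.natDegree • (S P D - S P 1) = 0 := by
          rw [hn, add_smul, ← smul_add, hq2 _ hqI, smul_zero]
        rw [h3, zero_add]
    rw [h2]
  constructor
  · intro h
    have : Fact (Irreducible T) := ⟨hTi⟩
    exact (key (AdjoinRoot T) (AdjoinRoot.root T)
      (by rw [aeval_def, AdjoinRoot.algebraMap_eq, AdjoinRoot.eval₂_root])
      AdjoinRoot.adjoinRoot_eq_top).1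
      (h (AdjoinRoot T) (AdjoinRoot.root T)
        (by rw [aeval_def, AdjoinRoot.algebraMap_eq, AdjoinRoot.eval₂_root])
        AdjoinRoot.adjoinRoot_eq_top)
  · intro h E _ _ t ht hadj
    exact (key E t ht hadj).2 h

end Pool.Agent.H34.WT
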