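import Pool.Agent.H63.WT.TC
import Pool.Agent.H34.WT.Lib

/-!
# Row SUM: a rational point at which the sum of the two classes vanishes
-/

set_option autoImplicit false

open Polynomial Matrix Pool.Agent.H63.WT

namespace Pool.Agent.H34.WT

theorem coprime_sub_C {F : Type} [Field F] {A : F[X]} {t : F} (h : eval t A ≠ 0) :
    IsCoprime A (X - C t) := by
  rw [isCoprime_comm, (irreducible_X_sub_C t).coprime_iff_not_dvd, dvd_iff_isRoot]
  exact h

/-- cancelling a nonzero square -/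
theorem isSquare_of_mul {F : Type} [Field F] {a b : F} (ha : IsSquare a) (ha0 : a ≠ 0)
    (hab : IsSquare (a * b)) : IsSquare b := by
  obtain ⟨x, hx⟩ := ha
  obtain ⟨y, hy⟩ := hab
  have hx0 : x ≠ 0 := fun h => ha0 (by rw [hx, h, mul_zero])
  refine ⟨y / x, ?_⟩
  field_simp
  rw [hx] at hy
  linear_combination hy

theorem pf_SUM (hPTB : T_PTB) (hFWD : T_FWD) (hEU8 : T_EU8) (hEU7 : T_EU7) (hSYF : T_SYF)
    (hCAD : T_CAD) (hEU9 : T_EU9) (hNNR : T_NNR) (hGDT : T_GDT) (hLAL : T_LAL) : T_SUM := by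
  classical
  intro F _ _ _ _ m M0 P1 P2 R1 R2 U1 U2 hD hex Z
  have hLA := hLAL F
  have h20 : (2 : F) ≠ 0 := hLA.1
  have hm := hD.m0
  set P : F[X] := P1 * P2 with hPdef
  have hPm : P.Monic := hD.mon1.mul hD.mon2
  have hPodd : Odd P.natDegree := by
    rw [hPdef, hD.mon1.natDegree_mul hD.mon2]
    exact hD.even1.add_odd hD.odd2
  have hcopM : IsCoprime P (C m * M0) := (coprime_C _ hm).mul_right hD.cop
  have hcop1 : IsCoprime P1 (C m * M0) := hcopM.of_isCoprime_of_dvd_left (Dvd.intro _ rfl)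
  have hcop2 : IsCoprime P2 (C m * M0) := hcopM.of_isCoprime_of_dvd_left (Dvd.intro_left _ rfl)
  have hP12 : IsCoprime P1 P2 := hD.sep.isCoprime
  -- the sum
  have hsum : ∀ t : F, eval t P ≠ 0 → eval t M0 ≠ 0 → IsSquare (m * eval t M0) →
      G m M0 (P * (X - C t)) = 0 →
      cc P1 P2 R1 (C m * M0) (X - C t) + cc P2 P1 R2 (C m * M0) (X - C t) = 0 := by
    intro t hPt hMt hsq hG
    have hPX := coprime_sub_C hPt
    have h7 := hEU7 F h20 m M0 P 1 t hm hD.mon0 hD.deg0 hPm monic_one isCoprime_one_right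
      (by rw [mul_one]; exact hD.cop) hPodd hPt hMt hsq
    rw [hG, sub_zero] at h7
    have h8 := hEU8 F h20 P1 P2 (C m * M0) hD.mon1 hD.mon2 hP12 hcopM
    have hsy : sy P (C m * M0) (X - C t) = sy R1 (C m * M0) (X - C t) +
        sy R2 (C m * M0) (X - C t) := by
      rw [hPdef, hSYF F hLA P1 P2 (C m * M0) (X - C t) hD.mon1 hD.mon2 hD.sep hcopM hPX,
        (hCAD F hLA P1 P2 R1 U1 (C m * M0) hD.mon1 hD.mon2 hD.monR1 hD.monU1 hD.fac1 hD.sep
          hcopM hD.sq1 hD.nn1).2.2.2 (X - C t)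
          (hPX.of_isCoprime_of_dvd_left (Dvd.intro _ rfl)),
        (hCAD F hLA P2 P1 R2 U2 (C m * M0) hD.mon2 hD.mon1 hD.monR2 hD.monU2 hD.fac2
          (by rw [mul_comm]; exact hD.sep) (by rw [mul_comm]; exact hcopM) hD.sq2
          hD.nn2).2.2.2 (X - C t) (hPX.of_isCoprime_of_dvd_left (Dvd.intro_left _ rfl))]
    have h9 : qc P 1 (C m * M0) = S P (C m * M0) - S P 1 := by rw [qc, mul_one]
    have h10 : sy P (C m * M0) 1 = 0 := by rw [sy, mul_one]; abel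
    rw [h9, h10, hsy, ← h8] at h7
    rw [cc, cc, natDegree_X_sub_C, one_smul, one_smul, ← h7]
    abel
  -- the norm
  have hnn : ∀ t : F, eval t P ≠ 0 → eval t M0 ≠ 0 → IsSquare (m * eval t M0) →
      IsSquare (nn M0 (P * (X - C t))) := by
    intro t hPt hMt hsq
    obtain ⟨-, -, -, hmul0, -⟩ := hGDT F M0 hD.mon0
    obtain ⟨-, -, -, hmulP, hcP, -⟩ := hGDT F P hPm
    obtain ⟨-, -, -, -, -, -, hlin⟩ := hGDT F (X - C t) (monic_X_sub_C t)
    have h1 : nn M0 P = nn P M0 := by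
      rw [(hNNR F M0 P hD.mon0 hPm).2, hD.deg0, pow_mul]
      norm_num
    have h2 : nn M0 (X - C t) = eval t M0 := by
      rw [(hNNR F M0 (X - C t) hD.mon0 (monic_X_sub_C t)).2, hD.deg0, natDegree_X_sub_C,
        hlin t rfl]
      norm_num
    have h3 : nn P (C m * M0) = m ^ P.natDegree * nn P M0 := by rw [hmulP, hcP]
    have h4 : IsSquare (nn P (C m * M0)) := by
      rw [hPdef, (hNNR F P1 P2 hD.mon1 hD.mon2).1]
      exact hD.nn1.mul hD.nn2
    rw [h3] at h4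
    obtain ⟨k, hk⟩ := hPodd
    rw [hmul0, h1, h2]
    refine isSquare_of_mul (a := (m ^ (k + 1)) * (m ^ (k + 1))) ⟨_, rfl⟩
      (mul_ne_zero (pow_ne_zero _ hm) (pow_ne_zero _ hm)) ?_
    have h5 := h4.mul hsq
    rw [hk] at h5
    have h6 : m ^ (k + 1) * m ^ (k + 1) * (nn P M0 * eval t M0) =
        m ^ (2 * k + 1) * nn P M0 * (m * eval t M0) := by ring
    rw [h6]; exact h5
  have hM0h : ∀ t : F, eval t P ≠ 0 → eval t M0 ≠ 0 → IsCoprime M0 (P * (X - C t)) :=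
    fun t hPt hMt => hD.cop.symm.mul_right (coprime_sub_C hMt)
  -- a start
  obtain ⟨ts, hts⟩ := hex
  obtain ⟨t0, ht0Z, -, ht0n, ht0s⟩ := (hPTB F m M0 hm hD.mon0 hD.sep0 hD.deg0).1 ts 1 one_pos hts
    (Z ∪ P.roots.toFinset)
  have hroot : ∀ t : F, t ∉ Z ∪ P.roots.toFinset → t ∉ Z ∧ eval t P ≠ 0 := by
    intro t ht
    rw [Finset.mem_union, not_or] at ht
    refine ⟨ht.1, fun h => ht.2 ?_⟩
    rw [Multiset.mem_toFinset, mem_roots hPm.ne_zero]
    exact h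
  obtain ⟨h0Z, h0P⟩ := hroot t0 ht0Z
  have h0M : eval t0 M0 ≠ 0 := (mul_ne_zero_iff.1 ht0n).2
  have h9 := ((hEU9 F h20).1 m M0 (P * (X - C t0)) hm hD.mon0 hD.deg0 (hM0h t0 h0P h0M)).2
    (hnn t0 h0P h0M ht0s)
  by_cases hAn : Anis (gm M0 (P * (X - C t0)))
  · obtain ⟨t, htZ, htM, htMet, htsq⟩ := hFWD F M0 P t0 hD.mon0 hD.sep0 hD.deg0 hD.cop.symm h0M
      hAn (Z ∪ P.roots.toFinset)
    obtain ⟨htZ', htP⟩ := hroot t htZ
    have hsq : IsSquare (m * eval t M0) := by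
      refine isSquare_of_mul (a := eval t0 M0 * eval t0 M0) ⟨_, rfl⟩ (mul_ne_zero h0M h0M) ?_
      have h5 := ht0s.mul htsq
      have h6 : eval t0 M0 * eval t0 M0 * (m * eval t M0) =
          m * eval t0 M0 * (eval t M0 * eval t0 M0) := by ring
      rw [h6]; exact h5
    refine ⟨t, htZ', htM, htP, hsq, hsum t htP htM hsq ?_⟩
    exact (((hEU9 F h20).1 m M0 (P * (X - C t)) hm hD.mon0 hD.deg0 (hM0h t htP htM)).2
      (hnn t htP htM hsq)).2.2 htMet
  · exact ⟨t0, h0Z, h0M, h0P, ht0s, hsum t0 h0P h0M ht0s (h9.1.2 hAn)⟩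

end Pool.Agent.H34.WT
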