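import Pool.Agent.H34.WT.Lib

/-!
# Row SYH: the symbol modulo an irreducible polynomial
-/

set_option autoImplicit false

open Polynomial Matrix Pool.Agent.H63.WT

namespace Pool.Agent.H34.WT

/-- reindexing does not change the class -/
theorem cls_submatrix (hCLS : T_CLS) {F : Type} [Field F] (h2 : (2 : F) ≠ 0) {ι κ : Type}
    [Fintype ι] [DecidableEq ι] [Fintype κ] [DecidableEq κ] (e : κ ≃ ι) (A : Matrix ι ι F)
    (hA : SN A) : cls (A.submatrix e e) = cls A := by
  have h := (hCLS F h2).2.2.1 ι κ A ((1 : Matrix ι ι F).submatrix id e)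
    ((1 : Matrix ι ι F).submatrix e id) hA
    (by rw [Matrix.submatrix_mul_equiv, Matrix.mul_one, Matrix.submatrix_id_id])
    (by
      have h1 := Matrix.submatrix_mul_equiv (1 : Matrix ι ι F) (1 : Matrix ι ι F) e
        (Equiv.refl ι) e
      rw [Equiv.coe_refl] at h1
      rw [h1, Matrix.mul_one, Matrix.submatrix_one_equiv])
  have h3 : ((1 : Matrix ι ι F).submatrix id e)ᵀ * A * ((1 : Matrix ι ι F).submatrix id e) =
      A.submatrix e e := by
    have h4 : ((1 : Matrix ι ι F).submatrix id e)ᵀ * A = A.submatrix e id := by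
      rw [Matrix.transpose_submatrix, Matrix.transpose_one]
      have h1 := Matrix.submatrix_mul_equiv (1 : Matrix ι ι F) A e (Equiv.refl ι) id
      rw [Equiv.coe_refl, Matrix.submatrix_id_id] at h1
      rw [h1, Matrix.one_mul]
    have h5 := Matrix.submatrix_mul_equiv A (1 : Matrix ι ι F) e (Equiv.refl ι) e
    rw [Equiv.coe_refl, Matrix.mul_one] at h5
    rw [h4, h5]
  rw [h3] at h
  exact h.2

theorem pf_SYH (hTR : T_TR) (hPFI : T_PFI) (hTRH : T_TRH) (hCLS : T_CLS) (hGDT : T_GDT) :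
    T_SYH := by
  intro F _ _ hF p a b hp hpi hpa hpb
  have h20 : (2 : F) ≠ 0 := hF.1
  have : Fact (Irreducible p) := ⟨hpi⟩
  have hfin : FiniteDimensional F (AdjoinRoot p) := (AdjoinRoot.powerBasis hp.ne_zero).finite
  have h2E : (2 : AdjoinRoot p) ≠ 0 := by
    have h := (map_ne_zero (algebraMap F (AdjoinRoot p))).2 h20
    rwa [map_ofNat] at h
  have hn := hpi.natDegree_pos
  let s : AdjoinRoot p →ₗ[F] F :=
    (Polynomial.lcoeff F (p.natDegree - 1)) ∘ₗ (AdjoinRoot.modByMonicHom hp)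
  have hsmk : ∀ g : F[X], s (AdjoinRoot.mk p g) = Pool.Agent.H34.N6.lam p g := by
    intro g
    change (AdjoinRoot.modByMonicHom hp (AdjoinRoot.mk p g)).coeff (p.natDegree - 1) = _
    rw [AdjoinRoot.modByMonicHom_mk]
    rfl
  let B : Module.Basis (Fin p.natDegree) F (AdjoinRoot p) := (AdjoinRoot.powerBasis' hp).basis
  have hB : ∀ i, B i = AdjoinRoot.mk p (X ^ (i : ℕ)) := by
    intro i
    rw [map_pow, AdjoinRoot.mk_X]
    exact (AdjoinRoot.powerBasis' hp).basis_eq_pow i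
  have hs0 : s ≠ 0 := by
    intro h
    have h1 : s (AdjoinRoot.mk p (X ^ (p.natDegree - 1))) = 0 := by rw [h]; rfl
    rw [hsmk, Pool.Agent.H34.N6.lam, (modByMonic_eq_self_iff hp).2, coeff_X_pow, if_pos rfl] at h1
    · exact one_ne_zero h1
    · rw [degree_X_pow, degree_eq_natDegree hp.ne_zero]
      exact_mod_cast Nat.sub_lt hn one_pos
  obtain ⟨f, hf⟩ := hTRH F (AdjoinRoot p) h20 p.natDegree B s hs0
  have hmk : ∀ g : F[X], IsCoprime p g → AdjoinRoot.mk p g ≠ 0 := by
    intro g hg h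
    exact hpi.not_isUnit (hg.isUnit_of_dvd' dvd_rfl (AdjoinRoot.mk_eq_zero.1 h))
  have hon : ∀ g : F[X], IsCoprime p g → f (on (AdjoinRoot.mk p g)) = S p g := by
    intro g hg
    have h1 : SN (fun _ _ : Fin 1 => AdjoinRoot.mk p g : Matrix (Fin 1) (Fin 1) (AdjoinRoot p)) := by
      refine ⟨rfl, ?_⟩
      rw [Matrix.det_fin_one]
      exact hmk g hg
    have h2 := (hf _ _ h1).2
    have hSN : SN (gm p g) := by
      obtain ⟨-, hsym, hdet, -⟩ := hGDT F p hp
      exact ⟨hsym g, (hdet g).2 hg⟩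
    rw [on, h2, S, ← cls_submatrix hCLS h20 (Equiv.uniqueProd (Fin p.natDegree) (Fin 1)) _ hSN]
    congr 1
    ext x y
    change s (AdjoinRoot.mk p g * (B x.2 * B y.2)) = gm p g x.2 y.2
    rw [hB, hB, ← map_mul, ← map_mul, hsmk, gm, pow_add]
  have hpf : f (pf (AdjoinRoot.mk p a) (AdjoinRoot.mk p b)) = sy p a b := by
    rw [pf, ← map_mul, map_add, map_sub, map_sub, hon a hpa, hon b hpb, hon (a * b)
      (hpa.mul_right hpb), ← map_one (AdjoinRoot.mk p), hon 1 isCoprime_one_right]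
    rfl
  obtain ⟨hI, hSol⟩ := hPFI (AdjoinRoot p) h2E (AdjoinRoot.mk p a) (AdjoinRoot.mk p b)
    (hmk a hpa) (hmk b hpb)
  rw [solM_iff, ← hSol, ← hpf]
  constructor
  · exact fun h => hTR F (AdjoinRoot p) hF hfin p.natDegree B s f hs0 hf _ hI h
  · intro h
    rw [h, map_zero]

end Pool.Agent.H34.WT
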