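import Pool.Agent.H34.WT.Lib

/-!
# Rows SYN, SYP, SYC
-/

set_option autoImplicit false

open Polynomial Matrix Pool.Agent.H63.WT

namespace Pool.Agent.H34.WT

theorem pf_SYN (hSYF : T_SYF) (hSYH : T_SYH) : T_SYN := by
  intro F _ _ hF A M Y hA hs
  have key := sep_ind (F := F) (Q := fun A => IsCoprime A M → IsCoprime A (Y ^ 2 - M) →
    sy A M (Y ^ 2 - M) = 0) (fun _ _ => sy_one hSYF hF _ _) (by
      intro p B hp hpi hB hsep ih h1 h2
      rw [hSYF F hF p B M (Y ^ 2 - M) hp hB hsep h1 h2,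
        ih (h1.of_isCoprime_of_dvd_left (Dvd.intro_left p rfl))
          (h2.of_isCoprime_of_dvd_left (Dvd.intro_left p rfl)), add_zero]
      rw [hSYH F hF p M (Y ^ 2 - M) hp hpi
        (h1.of_isCoprime_of_dvd_left (Dvd.intro B rfl))
        (h2.of_isCoprime_of_dvd_left (Dvd.intro B rfl))]
      refine ⟨1, 1, Y, Or.inl fun h => hpi.not_isUnit (isUnit_of_dvd_one h), ?_⟩
      have h3 : Y ^ 2 - M * 1 ^ 2 - (Y ^ 2 - M) * 1 ^ 2 = 0 := by ring
      rw [h3]
      exact dvd_zero p)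
  exact key A hA hs

theorem finite_adjoinRoot {F : Type} [Field F] (p : F[X]) (hp : p ≠ 0) :
    FiniteDimensional F (AdjoinRoot p) := (AdjoinRoot.powerBasis hp).finite

theorem pf_SYP (hSYH : T_SYH) : T_SYP := by
  intro F _ _ hF p M hp hpi hpM hsq
  have : Fact (Irreducible p) := ⟨hpi⟩
  obtain ⟨hNI, -⟩ := hF.2 (AdjoinRoot p) (finite_adjoinRoot p hp.ne_zero)
  have hM0 : AdjoinRoot.mk p M ≠ 0 := by
    intro h
    have h1 := AdjoinRoot.mk_eq_zero.1 h
    exact hpi.not_isUnit (hpM.isUnit_of_dvd' dvd_rfl h1)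
  have hMs : ¬ IsSquare (AdjoinRoot.mk p M) := by
    rintro ⟨s, hs⟩
    obtain ⟨s, rfl⟩ := AdjoinRoot.mk_surjective s
    apply hsq
    refine ⟨s, AdjoinRoot.mk_eq_zero.1 ?_⟩
    rw [map_sub, map_pow, hs]
    ring
  obtain ⟨N, hN, hN2⟩ := hNI _ hM0 hMs
  have hNt : N ≠ ⊤ := by
    intro h
    rw [h, Subgroup.index_top] at hN
    exact absurd hN (by norm_num)
  obtain ⟨b, hb⟩ : ∃ b, b ∉ N := by
    by_contra h
    push Not at h
    exact hNt ((Subgroup.eq_top_iff' N).2 h)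
  obtain ⟨g, hg⟩ := AdjoinRoot.mk_surjective (b : AdjoinRoot p)
  have hpg : IsCoprime p g := by
    rw [hpi.coprime_iff_not_dvd]
    intro h
    exact b.ne_zero (by rw [← hg]; exact AdjoinRoot.mk_eq_zero.2 h)
  refine ⟨g, hpg, fun h => hb ?_⟩
  rw [hN2, ← hg, ← solM_iff]
  exact (hSYH F hF p M g hp hpi hpM hpg).1 h

theorem pf_SYC (hSCL : T_SCL) (hSSQ : T_SSQ) (hGDT : T_GDT) (hCLS : T_CLS) (hI2D : T_I2D) :
    T_SYC := by
  intro F _ _ hF A M hA hs hAM
  have h2 : (2 : F) ≠ 0 := hF.1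
  obtain ⟨hNI, hnsq⟩ := hF.2 F inferInstance
  obtain ⟨-, hsym, hdet, -, -, hcong, -⟩ := hGDT F A hA
  obtain ⟨hsq1, -, hsm⟩ := hSSQ F h2 A hA
  have hSN : ∀ h : F[X], IsCoprime A h → SN (gm A h) := fun h hh =>
    ⟨hsym h, (hdet h).2 hh⟩
  refine ⟨?_, ?_, ?_⟩
  · intro l hl hsq
    have hS1 := hSN 1 isCoprime_one_right
    have hSM := hSN M hAM
    obtain ⟨-, hblk, -, hneg, -⟩ := hCLS F h2
    have hSMn : SN (-gm A M) := by
      refine ⟨?_, ?_⟩
      · rw [Matrix.IsSymm, transpose_neg, hSM.1]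
      · rw [det_neg]
        exact mul_ne_zero (pow_ne_zero _ (neg_ne_zero.2 one_ne_zero)) hSM.2
    have hI : I2 (cls (gm A 1) - cls (gm A M)) := by
      have h3 : cls (gm A 1) - cls (gm A M) = cls (fromBlocks (gm A 1) 0 0 (-gm A M)) := by
        rw [hblk _ _ _ _ hS1 hSMn, hneg _ _ hSM, sub_eq_add_neg]
      rw [h3, hI2D F h2 _ _ A.natDegree]
      · rw [det_fromBlocks_zero₂₁, det_neg, Fintype.card_fin]
        have h4 : (-1 : F) ^ A.natDegree * ((gm A 1).det * ((-1) ^ A.natDegree * (gm A M).det)) =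
            nn A M := by
          have h5 : ((-1 : F) ^ A.natDegree) * ((-1) ^ A.natDegree) = 1 := by
            rw [← mul_pow]; simp
          rw [nn]
          linear_combination ((gm A M).det * (gm A 1).det) * h5
        rw [h4]; exact hsq
      · refine ⟨?_, ?_⟩
        · rw [Matrix.IsSymm, fromBlocks_transpose, transpose_zero, hS1.1, hSMn.1]
        · rw [det_fromBlocks_zero₂₁]
          exact mul_ne_zero hS1.2 hSMn.2
      · rw [Fintype.card_sum, Fintype.card_fin]; ring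
    have h6 := (hSCL F h2 hNI hnsq l hl).2 _ _ _ _ hS1 hSM hI
    have h7 : S A (C l) = cls (l • gm A 1) := by
      rw [← hsm, mul_one]; rfl
    have h8 : S A (M * C l) = cls (l • gm A M) := by
      rw [← hsm, mul_comm]; rfl
    rw [sy, h7, h8]
    have h9 : S A 1 = cls (gm A 1) := rfl
    have h10 : S A M = cls (gm A M) := rfl
    rw [h9, h10, ← h6]
    abel
  · rintro h hh ⟨s, hs'⟩
    have h3 : S A M = S A 1 := hsq1 M 1 s hAM isCoprime_one_right (by rw [one_mul]; exact hs')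
    have h4 : S A (M * h) = S A h := by
      refine hsq1 (M * h) h s (hAM.mul_right hh) hh ?_
      obtain ⟨q, hq⟩ := hs'
      exact ⟨q * h, by linear_combination h * hq⟩
    rw [sy, h3, h4]
    abel
  · intro h h' hh hd
    have h3 : S A h = S A h' := by
      rw [S, S, hcong h h' hd]
    have h4 : S A (M * h) = S A (M * h') := by
      have h5 : A ∣ M * h - M * h' := by
        rw [← mul_sub]; exact Dvd.dvd.mul_left hd M
      rw [S, S, hcong _ _ h5]
    rw [sy, sy, h3, h4]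

end Pool.Agent.H34.WT
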