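import Pool.Agent.H63.WT.TA

/-!
# Row TRI: transfers respect the square of the fundamental ideal
-/

set_option autoImplicit false

open Polynomial Matrix Pool.Agent.H63.WT
open scoped Kronecker

namespace Pool.Agent.H34.WT

theorem det_trm {F E ι : Type} [Field F] [Field E] [Algebra F E] [Fintype ι] [DecidableEq ι]
    {d : ℕ} (b : Module.Basis (Fin d) F E) (s : E →ₗ[F] F) (A : Matrix ι ι E) :
    (trm s b A).det = (Matrix.of fun i j => s (b i * b j) : Matrix (Fin d) (Fin d) F).det ^
      (Fintype.card ι) * (Algebra.leftMulMatrix b A.det).det := by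
  set G : Matrix (Fin d) (Fin d) F := Matrix.of fun i j => s (b i * b j) with hG
  have h1 : trm s b A = ((1 : Matrix ι ι F) ⊗ₖ G) *
      Matrix.comp ι ι (Fin d) (Fin d) F (A.map (Algebra.leftMulMatrix b : E →+* _)) := by
    ext ⟨x, i⟩ ⟨y, j⟩
    rw [Matrix.mul_apply, Fintype.sum_prod_type]
    have h2 : ∀ a : ι, ∑ k, ((1 : Matrix ι ι F) ⊗ₖ G) (x, i) (a, k) *
        Matrix.comp ι ι (Fin d) (Fin d) F (A.map (Algebra.leftMulMatrix b : E →+* _))
          (a, k) (y, j) = if x = a then ∑ k, G i k * Algebra.leftMulMatrix b (A x y) k j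
          else 0 := by
      intro a
      by_cases h : x = a
      · rw [if_pos h, ← h]
        refine Finset.sum_congr rfl fun k _ => ?_
        rw [Matrix.kroneckerMap_apply, Matrix.one_apply_eq, one_mul]
        rfl
      · rw [if_neg h]
        refine Finset.sum_eq_zero fun k _ => ?_
        rw [Matrix.kroneckerMap_apply, Matrix.one_apply_ne h, zero_mul, zero_mul]
    rw [Finset.sum_congr rfl fun a _ => h2 a, Finset.sum_ite_eq Finset.univ x,
      if_pos (Finset.mem_univ x)]
    change s (A x y * (b i * b j)) = _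
    have h3 : A x y * b j = ∑ k, Algebra.leftMulMatrix b (A x y) k j • b k := by
      conv_lhs => rw [← b.sum_repr (A x y * b j)]
      refine Finset.sum_congr rfl fun k _ => ?_
      rw [Algebra.leftMulMatrix_eq_repr_mul]
    have h4 : A x y * (b i * b j) = b i * (A x y * b j) := by ring
    rw [h4, h3, Finset.mul_sum, map_sum]
    refine Finset.sum_congr rfl fun k _ => ?_
    rw [mul_smul_comm, map_smul, smul_eq_mul, mul_comm]
    rfl
  rw [h1, Matrix.det_mul, Matrix.det_kronecker, Matrix.det_one, one_pow, one_mul,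
    ← Matrix.det_det]
  rfl

theorem pf_TRI (hI2D : T_I2D) : T_TRI := by
  intro F E _ _ _ hF d b s f hs0 hf x hx
  have h20 : (2 : F) ≠ 0 := hF.1
  obtain ⟨n, A, hA, ⟨e, he⟩, rfl⟩ := hx
  obtain ⟨hSN, hfA⟩ := hf _ A hA
  rw [hfA, hI2D F h20 _ _ (n * d) hSN (by
    rw [Fintype.card_prod, Fintype.card_fin, Fintype.card_fin]; ring)]
  have hdet : A.det = (-1) ^ n * (e * e) := by
    have h1 : ((-1 : E) ^ n) * (-1) ^ n = 1 := by rw [← mul_pow]; simp
    rw [← he, ← mul_assoc, h1, one_mul]
  rw [det_trm, Fintype.card_fin, hdet]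
  set L := Algebra.leftMulMatrix b with hL
  have h2 : (L ((-1) ^ n * (e * e))).det = ((-1 : F) ^ d) ^ n * ((L e).det * (L e).det) := by
    rw [map_mul, map_mul, map_pow, map_neg, map_one, Matrix.det_mul, Matrix.det_mul,
      Matrix.det_pow, Matrix.det_neg, Matrix.det_one, mul_one, Fintype.card_fin]
  rw [h2]
  set g := (Matrix.of fun i j => s (b i * b j) : Matrix (Fin d) (Fin d) F).det with hg
  refine ⟨g ^ n * (L e).det, ?_⟩
  have h3 : ((-1 : F) ^ (n * d)) * ((-1) ^ d) ^ n = 1 := by
    rw [mul_comm n d, pow_mul, ← mul_pow, ← mul_pow]; simp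
  have h4 : g ^ (2 * n) = g ^ n * g ^ n := by rw [two_mul, pow_add]
  rw [h4]
  linear_combination (g ^ n * g ^ n * ((L e).det * (L e).det)) * h3

end Pool.Agent.H34.WT
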