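import Pool.Agent.H38.WT.Targets

/-!
# FIN (board wt_modules)
-/

set_option autoImplicit false

namespace Pool.Agent.H34.WT

open Pool.Agent.H38.WT

theorem pf_FIN (h1 : T_MU) (h2 : T_SK) (h3 : T_PT) : T_FIN := by
  refine ⟨?_, ?_⟩
  · intro n hn
    obtain ⟨hI, hJ, -⟩ := h3 n (by omega)
    exact ⟨hI, hJ, fun m hm => h1 n m (by omega) hm, h2 n hn⟩
  · intro K
    obtain ⟨hI, hJ, -⟩ := h3 (K + 109) (by omega)
    refine ⟨K + 109, pI (K + 109), pJ (K + 109), hI, hJ, ?_, ?_⟩
    · intro m hm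
      exact h1 (K + 109) m (by omega) (by omega)
    · intro h
      have := h2 (K + 109) (by omega)
      omega

end Pool.Agent.H34.WT
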